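import Pool.Agent.Lib_helper82.GK.TTB

/-! Block IND (helper82): ordered products of approximately primitive elements are independent. -/

set_option autoImplicit false

universe u v

namespace Pool.Agent.GK

open TensorProduct

section
variable (k : Type u) [Field k] {H : Type v} [Ring H] [Bialgebra k H]

/-- ordered product of the `x i`, `i ∈ S` -/
def indX {m : ℕ} (x : Fin m → H) (S : Finset (Fin m)) : H :=
  ((S.sort (fun a b => a ≤ b)).map x).prod

theorem indX_empty {m : ℕ} (x : Fin m → H) : indX x ∅ = 1 := by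
  simp [indX]

theorem indX_insert {m : ℕ} (x : Fin m → H) (a : Fin m) (S : Finset (Fin m))
    (h : ∀ b ∈ S, a < b) : indX x (insert a S) = x a * indX x S := by
  have ha : a ∉ S := fun hc => lt_irrefl _ (h a hc)
  have hs : (insert a S).sort (fun a b => a ≤ b) = a :: S.sort (fun a b => a ≤ b) :=
    Finset.sort_insert (r := fun a b : Fin m => a ≤ b) (fun b hb => (h b hb).le) ha
  unfold indX
  rw [hs, List.map_cons, List.prod_cons]

theorem indX_singleton {m : ℕ} (x : Fin m → H) (a : Fin m) : indX x {a} = x a := by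
  have := indX_insert x a ∅ (by simp)
  rw [indX_empty, mul_one] at this
  simpa using this

theorem indX_mem {F : ℕ → Submodule k H} (h0 : F 0 = Submodule.span k {1})
    (hmul : ∀ a b : ℕ, ∀ x ∈ F a, ∀ y ∈ F b, x * y ∈ F (a + b))
    {m : ℕ} {x : Fin m → H} {n : Fin m → ℕ} (hx : ∀ i, x i ∈ F (n i)) (S : Finset (Fin m)) :
    indX x S ∈ F (∑ i ∈ S, n i) := by
  induction S using Finset.induction_on_min with
  | empty => rw [indX_empty]; exact ttb_one k F h0
  | insert a S h ih =>
    have ha : a ∉ S := fun hc => lt_irrefl _ (h a hc)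
    rw [indX_insert x a S h, Finset.sum_insert ha]
    exact hmul _ _ _ (hx a) _ ih

theorem ind_comul {F : ℕ → Submodule k H} (h0 : F 0 = Submodule.span k {1})
    (hmul : ∀ a b : ℕ, ∀ x ∈ F a, ∀ y ∈ F b, x * y ∈ F (a + b))
    {m : ℕ} {x : Fin m → H} {n : Fin m → ℕ} (hx : ∀ i, ApproxPrim k F (n i) (x i))
    (S : Finset (Fin m)) :
    Coalgebra.comul (R := k) (indX x S) -
      ∑ T ∈ S.powerset, indX x T ⊗ₜ[k] indX x (S \ T) ∈ Tlt k F (∑ i ∈ S, n i) := by
  classical
  induction S using Finset.induction_on_min with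
  | empty =>
    rw [indX_empty]
    simp only [Finset.powerset_empty, Finset.sum_singleton, Finset.sdiff_empty, indX_empty,
      Bialgebra.comul_one]
    rw [Algebra.TensorProduct.one_def, sub_self]
    exact zero_mem _
  | insert a S h ih =>
    have ha : a ∉ S := fun hc => lt_irrefl _ (h a hc)
    set D := ∑ T ∈ S.powerset, indX x T ⊗ₜ[k] indX x (S \ T) with hD
    set η := Coalgebra.comul (R := k) (indX x S) - D with hη
    set p := x a ⊗ₜ[k] (1 : H) + (1 : H) ⊗ₜ[k] x a with hp
    set ε := Coalgebra.comul (R := k) (x a) - x a ⊗ₜ[k] (1 : H) - (1 : H) ⊗ₜ[k] x a with hε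
    have h1 : (1 : H) ∈ F 0 := ttb_one k F h0
    have hpT : p ∈ TT k F (n a) :=
      add_mem (ttb_mem k F (hx a).1 h1 (by omega)) (ttb_mem k F h1 (hx a).1 (by omega))
    have hDT : D ∈ TT k F (∑ i ∈ S, n i) := by
      refine sum_mem fun T hT => ?_
      have hTS : T ⊆ S := Finset.mem_powerset.mp hT
      refine ttb_mem k F (indX_mem k h0 hmul (fun i => (hx i).1) T)
        (indX_mem k h0 hmul (fun i => (hx i).1) (S \ T)) ?_
      rw [add_comm, Finset.sum_sdiff hTS]
    have hsum : ∑ T ∈ (insert a S).powerset, indX x T ⊗ₜ[k] indX x ((insert a S) \ T) = p * D := by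
      rw [Finset.sum_powerset_insert ha, hp, add_mul, hD, Finset.mul_sum, Finset.mul_sum]
      rw [add_comm]
      congr 1
      · refine Finset.sum_congr rfl fun T hT => ?_
        have hTS : T ⊆ S := Finset.mem_powerset.mp hT
        have e1 : insert a S \ insert a T = S \ T := by
          ext b
          simp only [Finset.mem_sdiff, Finset.mem_insert]
          constructor
          · rintro ⟨h1 | h1, h2⟩
            · exact absurd (Or.inl h1) h2
            · exact ⟨h1, fun h3 => h2 (Or.inr h3)⟩
          · rintro ⟨h1, h2⟩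
            refine ⟨Or.inr h1, ?_⟩
            rintro (h3 | h3)
            · subst h3; exact ha h1
            · exact h2 h3
        rw [e1, indX_insert x a T (fun b hb => h b (hTS hb)),
          Algebra.TensorProduct.tmul_mul_tmul, one_mul]
      · refine Finset.sum_congr rfl fun T hT => ?_
        have hTS : T ⊆ S := Finset.mem_powerset.mp hT
        have e1 : insert a S \ T = insert a (S \ T) := by
          ext b
          simp only [Finset.mem_sdiff, Finset.mem_insert]
          constructor
          · rintro ⟨h1 | h1, h2⟩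
            · exact Or.inl h1
            · exact Or.inr ⟨h1, h2⟩
          · rintro (h1 | ⟨h1, h2⟩)
            · subst h1; exact ⟨Or.inl rfl, fun h3 => ha (hTS h3)⟩
            · exact ⟨Or.inr h1, h2⟩
        rw [e1, indX_insert x a (S \ T) (fun b hb => h b (Finset.mem_sdiff.mp hb).1),
          Algebra.TensorProduct.tmul_mul_tmul, one_mul]
    rw [hsum, indX_insert x a S h, Bialgebra.comul_mul, Finset.sum_insert ha]
    have e2 : Coalgebra.comul (R := k) (x a) = p + ε := by rw [hp, hε]; abel
    have e3 : Coalgebra.comul (R := k) (indX x S) = D + η := by rw [hη]; abel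
    rw [e2, e3]
    have e4 : (p + ε) * (D + η) - p * D = p * η + ε * (D + η) := by noncomm_ring
    rw [e4]
    exact add_mem (ttb_lt_mul k F hmul hpT ih)
      (ttb_mul_lt k F hmul (hx a).2 (add_mem hDT (ttb_tlt_le k F _ ih)))

/-- index set -/
def indS {m : ℕ} (n : Fin m → ℕ) (r N : ℕ) : Finset (Finset (Fin m)) :=
  Finset.univ.filter (fun S => S.card ≤ r ∧ ∑ i ∈ S, n i = N)

theorem ind_mem_S {m : ℕ} (n : Fin m → ℕ) (r N : ℕ) (S : Finset (Fin m)) :
    S ∈ indS n r N ↔ S.card ≤ r ∧ ∑ i ∈ S, n i = N := by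
  simp [indS]

/-- dual functional from independence modulo a subspace -/
theorem ind_functional {ι : Type*} [DecidableEq ι] (A : Finset ι) (v : ι → H) (W : Submodule k H)
    (hli : ∀ a : ι → k, ∑ S ∈ A, a S • v S ∈ W → ∀ S ∈ A, a S = 0) (S₀ : ι) (hS₀ : S₀ ∈ A) :
    ∃ φ : H →ₗ[k] k, (∀ u ∈ W, φ u = 0) ∧ ∀ T ∈ A, φ (v T) = if T = S₀ then 1 else 0 := by
  classical
  have hv : LinearIndependent k (fun S : {S // S ∈ A} => W.mkQ (v S.1)) := by
    rw [Fintype.linearIndependent_iff]
    intro g hg S
    have h1 : ∑ S ∈ A, (if h : S ∈ A then g ⟨S, h⟩ else 0) • v S ∈ W := by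
      rw [← Submodule.Quotient.mk_eq_zero W, ← Submodule.mkQ_apply, map_sum, ← hg]
      rw [← Finset.sum_coe_sort]
      refine Finset.sum_congr rfl fun T _ => ?_
      rw [map_smul, dif_pos T.2]
    have h2 := hli _ h1 S.1 S.2
    rw [dif_pos S.2] at h2
    exact h2
  let g : Submodule.span k (Set.range (fun S : {S // S ∈ A} => W.mkQ (v S.1))) →ₗ[k] k :=
    (Finsupp.lapply ⟨S₀, hS₀⟩).comp hv.repr
  obtain ⟨ψ, hψ⟩ := LinearMap.exists_extend g
  refine ⟨ψ.comp W.mkQ, ?_, ?_⟩
  · intro u hu
    rw [LinearMap.comp_apply]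
    have : W.mkQ u = 0 := by rw [Submodule.mkQ_apply]; exact (Submodule.Quotient.mk_eq_zero W).mpr hu
    rw [this, map_zero]
  · intro T hT
    have hmem : W.mkQ (v T) ∈ Submodule.span k
        (Set.range (fun S : {S // S ∈ A} => W.mkQ (v S.1))) :=
      Submodule.subset_span ⟨⟨T, hT⟩, rfl⟩
    have h1 : ψ (W.mkQ (v T)) = g ⟨W.mkQ (v T), hmem⟩ := by
      rw [← hψ]; rfl
    rw [LinearMap.comp_apply, h1]
    change (Finsupp.lapply (R := k) (M := k) (⟨S₀, hS₀⟩ : {S // S ∈ A}))
      (hv.repr ⟨W.mkQ (v T), hmem⟩) = _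
    rw [hv.repr_eq_single ⟨T, hT⟩ ⟨W.mkQ (v T), hmem⟩ rfl, Finsupp.lapply_apply,
      Finsupp.single_apply]
    by_cases h : T = S₀
    · subst h; simp
    · rw [if_neg h, if_neg]
      intro hc
      exact h (congrArg Subtype.val hc)

theorem ind_base {F : ℕ → Submodule k H} {m : ℕ} {x : Fin m → H} {n : Fin m → ℕ} (hx : IsIndep k F x n)
    (N : ℕ) (a : Finset (Fin m) → k)
    (hz : ∑ S ∈ indS n 1 N, a S • indX x S ∈ Flt k F N) : ∀ S ∈ indS n 1 N, a S = 0 := by
  classical
  by_cases hN : N = 0
  · subst hN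
    have hS : indS n 1 0 = {∅} := by
      ext S
      rw [ind_mem_S, Finset.mem_singleton]
      constructor
      · rintro ⟨_, h2⟩
        rw [Finset.eq_empty_iff_forall_notMem]
        intro i hi
        have := Finset.sum_eq_zero_iff.mp h2 i hi
        have := hx.npos i
        omega
      · rintro rfl; simp
    rw [hS, Finset.sum_singleton, indX_empty] at hz
    have hz' : a ∅ • (1 : H) = 0 := by simpa [Flt] using hz
    intro S hSm
    rw [hS, Finset.mem_singleton] at hSm
    subst hSm
    have h1 := congrArg (Coalgebra.counit (R := k)) hz'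
    rw [map_smul, map_zero, Bialgebra.counit_one, smul_eq_mul, mul_one] at h1
    exact h1
  · have hS : indS n 1 N = (Finset.univ.filter (fun i => n i = N)).image (fun i => {i}) := by
      ext S
      rw [ind_mem_S, Finset.mem_image]
      constructor
      · rintro ⟨h1, h2⟩
        have h3 : S.card = 0 ∨ S.card = 1 := by omega
        rcases h3 with h3 | h3
        · rw [Finset.card_eq_zero] at h3
          subst h3
          rw [Finset.sum_empty] at h2
          exact absurd h2.symm hN
        · rw [Finset.card_eq_one] at h3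
          obtain ⟨i, rfl⟩ := h3
          refine ⟨i, ?_, rfl⟩
          rw [Finset.sum_singleton] at h2
          simp [h2]
      · rintro ⟨i, hi, rfl⟩
        rw [Finset.mem_filter] at hi
        refine ⟨by simp, by simpa using hi.2⟩
    rw [hS, Finset.sum_image (fun i _ j _ hij => Finset.singleton_injective hij)] at hz
    intro S hSm
    rw [hS, Finset.mem_image] at hSm
    obtain ⟨i₀, hi₀, rfl⟩ := hSm
    by_contra hne
    let A : Finset (Fin m) := Finset.univ.filter (fun i => n i = N ∧ a {i} ≠ 0)
    have hA : A.Nonempty := by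
      refine ⟨i₀, ?_⟩
      rw [Finset.mem_filter] at hi₀
      exact Finset.mem_filter.mpr ⟨Finset.mem_univ _, hi₀.2, hne⟩
    obtain ⟨i, hi, hmax⟩ := Finset.exists_maximal hA
    obtain ⟨-, hiN, hia⟩ := Finset.mem_filter.mp hi
    apply hx.indep i
    have hiB : i ∈ Finset.univ.filter (fun i => n i = N) :=
      Finset.mem_filter.mpr ⟨Finset.mem_univ _, hiN⟩
    rw [← Finset.add_sum_erase _ _ hiB] at hz
    have h2 : ∑ j ∈ (Finset.univ.filter (fun i => n i = N)).erase i, a {j} • indX x {j} ∈
        Submodule.span k (x '' {j | j < i ∧ n j = n i}) := by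
      refine sum_mem fun j hj => ?_
      obtain ⟨hji, hj⟩ := Finset.mem_erase.mp hj
      have hjN := (Finset.mem_filter.mp hj).2
      by_cases hja : a {j} = 0
      · rw [hja, zero_smul]; exact zero_mem _
      · have hjA : j ∈ A := Finset.mem_filter.mpr ⟨Finset.mem_univ _, hjN, hja⟩
        have hlt : j < i := by
          rcases lt_trichotomy j i with h | h | h
          · exact h
          · exact absurd h hji
          · exact absurd (hmax hjA h.le) (not_le.mpr h)
        rw [indX_singleton]
        exact Submodule.smul_mem _ _ (Submodule.subset_span ⟨j, ⟨hlt, by rw [hjN, hiN]⟩, rfl⟩)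
    rw [indX_singleton] at hz
    have h3 : a {i} • x i ∈ Flt k F (n i) ⊔ Submodule.span k (x '' {j | j < i ∧ n j = n i}) := by
      rw [hiN] at h2 ⊢
      have := sub_mem (Submodule.mem_sup_left
        (T := Submodule.span k (x '' {j | j < i ∧ n j = N})) hz)
        (Submodule.mem_sup_right (S := Flt k F N) h2)
      simpa using this
    have h4 := Submodule.smul_mem _ (a {i})⁻¹ h3
    rwa [smul_smul, inv_mul_cancel₀ hia, one_smul] at h4

theorem ind_step {F : ℕ → Submodule k H} {m₀ : ℕ} {c : Fin m₀ → H} {w : Fin m₀ → ℕ}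
    (hF : IsFilt k F c w) {m : ℕ} {x : Fin m → H} {n : Fin m → ℕ} (hx : IsIndep k F x n)
    (r : ℕ) : ∀ (N : ℕ) (a : Finset (Fin m) → k),
      ∑ S ∈ indS n (r + 1) N, a S • indX x S ∈ Flt k F N → ∀ S ∈ indS n (r + 1) N, a S = 0 := by
  classical
  induction r with
  | zero => exact fun N a hz => ind_base k hx N a hz
  | succ r ih =>
    intro N a hz
    -- coefficients of large sets vanish
    have hbig : ∀ S₀ ∈ indS n (r + 1 + 1) N, 2 ≤ S₀.card → a S₀ = 0 := by
      intro S₀ hS₀ hcard
      obtain ⟨hc0, hN0⟩ := (ind_mem_S n _ _ _).mp hS₀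
      have hne : S₀.Nonempty := Finset.card_pos.mp (by omega)
      set t := S₀.min' hne with ht
      have htS : t ∈ S₀ := Finset.min'_mem _ _
      have hwU : n t + ∑ i ∈ S₀.erase t, n i = N := by
        rw [Finset.add_sum_erase _ _ htS]; exact hN0
      have hcU : (S₀.erase t).card + 1 = S₀.card := Finset.card_erase_add_one htS
      have hUne : (S₀.erase t).Nonempty := Finset.card_pos.mp (by omega)
      have hwU1 : 1 ≤ ∑ i ∈ S₀.erase t, n i := by
        obtain ⟨i, hi⟩ := hUne
        exact le_trans (hx.npos i) (Finset.single_le_sum (f := n) (fun _ _ => Nat.zero_le _) hi)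
      have hwT1 : 1 ≤ n t := hx.npos t
      obtain ⟨φ, hφ0, hφ1⟩ := ind_functional k (indS n (r + 1) (n t)) (indX x) (Flt k F (n t))
        (ih (n t)) {t} ((ind_mem_S n _ _ _).mpr ⟨by simp, by simp⟩)
      obtain ⟨ψ, hψ0, hψ1⟩ := ind_functional k (indS n (r + 1) (∑ i ∈ S₀.erase t, n i)) (indX x)
        (Flt k F (∑ i ∈ S₀.erase t, n i)) (ih _) (S₀.erase t)
        ((ind_mem_S n _ _ _).mpr ⟨by omega, rfl⟩)
      let Ψ : H ⊗[k] H →ₗ[k] k := (LinearMap.mul' k k).comp (TensorProduct.map φ ψ)
      have hΨ : ∀ u v : H, Ψ (u ⊗ₜ[k] v) = φ u * ψ v := by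
        intro u v
        simp [Ψ, TensorProduct.map_tmul]
      have hkill : ∀ s ∈ Tlt k F N, Ψ s = 0 := by
        intro s hs
        obtain ⟨N', hN'⟩ : ∃ N', N = N' + 1 := ⟨N - 1, by omega⟩
        rw [hN'] at hs
        change s ∈ TT k F N' at hs
        refine Submodule.span_induction (p := fun s _ => Ψ s = 0) ?_ ?_ ?_ ?_ hs
        · rintro _ ⟨p, q, u, hu, v, hv, hpq, rfl⟩
          rw [hΨ]
          by_cases hp : p < n t
          · rw [hφ0 u (ttb_le_flt k F hF.mono hp hu), zero_mul]
          · have hq : q < ∑ i ∈ S₀.erase t, n i := by omega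
            rw [hψ0 v (ttb_le_flt k F hF.mono hq hv), mul_zero]
        · exact map_zero _
        · intro s s' _ _ h1 h2; rw [map_add, h1, h2, add_zero]
        · intro r s _ h1; rw [map_smul, h1, smul_zero]
      have h1F : (1 : H) ∈ F 0 := ttb_one k F hF.zero
      -- value of Ψ on Δ(x_S)
      have hval : ∀ S ∈ indS n (r + 1 + 1) N,
          Ψ (Coalgebra.comul (R := k) (indX x S)) = if S = S₀ then 1 else 0 := by
        intro S hS
        obtain ⟨hcS, hNS⟩ := (ind_mem_S n _ _ _).mp hS
        have hdiff := ind_comul k hF.zero hF.mul hx.prim S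
        rw [hNS] at hdiff
        have h1 := hkill _ hdiff
        rw [map_sub, sub_eq_zero] at h1
        rw [h1, map_sum]
        have hterm : ∀ T ∈ S.powerset, Ψ (indX x T ⊗ₜ[k] indX x (S \ T)) =
            if T = {t} ∧ S \ T = S₀.erase t then 1 else 0 := by
          intro T hT
          have hTS : T ⊆ S := Finset.mem_powerset.mp hT
          have hcsum : (S \ T).card + T.card = S.card := Finset.card_sdiff_add_card_eq_card hTS
          have hwsum : ∑ i ∈ S \ T, n i + ∑ i ∈ T, n i = N := by
            rw [Finset.sum_sdiff hTS]; exact hNS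
          rw [hΨ]
          by_cases hT0 : T = ∅
          · rw [hT0, indX_empty, hφ0 1 (ttb_le_flt k F hF.mono hwT1 h1F), zero_mul, if_neg]
            rintro ⟨h, _⟩
            exact absurd h.symm (Finset.singleton_ne_empty t)
          by_cases hU0 : S \ T = ∅
          · rw [hU0, indX_empty, hψ0 1 (ttb_le_flt k F hF.mono hwU1 h1F), mul_zero, if_neg]
            rintro ⟨_, h⟩
            rw [← h] at hUne
            exact Finset.not_nonempty_empty hUne
          have hTc : 1 ≤ T.card := Finset.card_pos.mpr (Finset.nonempty_iff_ne_empty.mpr hT0)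
          have hUc : 1 ≤ (S \ T).card := Finset.card_pos.mpr (Finset.nonempty_iff_ne_empty.mpr hU0)
          have hmT := indX_mem k hF.zero hF.mul (fun i => (hx.prim i).1) T
          have hmU := indX_mem k hF.zero hF.mul (fun i => (hx.prim i).1) (S \ T)
          rcases lt_trichotomy (∑ i ∈ T, n i) (n t) with hlt | heq | hgt
          · rw [hφ0 _ (ttb_le_flt k F hF.mono hlt hmT), zero_mul, if_neg]
            rintro ⟨h, _⟩
            rw [h, Finset.sum_singleton] at hlt
            exact lt_irrefl _ hlt
          · have heq' : ∑ i ∈ S \ T, n i = ∑ i ∈ S₀.erase t, n i := by omega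
            rw [hφ1 T ((ind_mem_S n _ _ _).mpr ⟨by omega, heq⟩),
              hψ1 (S \ T) ((ind_mem_S n _ _ _).mpr ⟨by omega, heq'⟩)]
            by_cases ha : T = {t}
            · by_cases hb : S \ T = S₀.erase t
              · rw [if_pos ha, if_pos hb, if_pos ⟨ha, hb⟩, mul_one]
              · rw [if_neg hb, mul_zero, if_neg (fun h => hb h.2)]
            · rw [if_neg ha, zero_mul, if_neg (fun h => ha h.1)]
          · have hlt' : ∑ i ∈ S \ T, n i < ∑ i ∈ S₀.erase t, n i := by omega
            rw [hψ0 _ (ttb_le_flt k F hF.mono hlt' hmU), mul_zero, if_neg]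
            rintro ⟨h, _⟩
            rw [h, Finset.sum_singleton] at hgt
            exact lt_irrefl _ hgt
        rw [Finset.sum_congr rfl hterm]
        by_cases hSS : S = S₀
        · rw [if_pos hSS, hSS]
          rw [Finset.sum_eq_single {t}]
          · rw [if_pos ⟨rfl, Finset.sdiff_singleton_eq_erase t S₀⟩]
          · intro T _ hT
            rw [if_neg (fun h => hT h.1)]
          · intro h
            exact absurd (Finset.mem_powerset.mpr (Finset.singleton_subset_iff.mpr htS)) h
        · rw [if_neg hSS]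
          refine Finset.sum_eq_zero fun T hT => ?_
          rw [if_neg]
          rintro ⟨h1, h2⟩
          apply hSS
          have hTS : T ⊆ S := Finset.mem_powerset.mp hT
          have : S = (S \ T) ∪ T := (Finset.sdiff_union_of_subset hTS).symm
          rw [this, h2, h1, Finset.union_comm, ← Finset.insert_eq, Finset.insert_erase htS]
      -- apply to z
      have hz1 : Coalgebra.comul (R := k) (∑ S ∈ indS n (r + 1 + 1) N, a S • indX x S) ∈
          Tlt k F N := by
        obtain ⟨N', hN'⟩ : ∃ N', N = N' + 1 := ⟨N - 1, by omega⟩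
        rw [hN'] at hz ⊢
        exact hF.comul N' _ hz
      have hz2 := hkill _ hz1
      rw [map_sum, map_sum] at hz2
      have hz3 : ∑ S ∈ indS n (r + 1 + 1) N, a S * (if S = S₀ then 1 else 0) = 0 := by
        refine Eq.trans (Finset.sum_congr rfl fun S hS => ?_) hz2
        rw [map_smul, map_smul, hval S hS, smul_eq_mul]
      rw [Finset.sum_eq_single S₀] at hz3
      · simpa using hz3
      · intro S _ hS
        rw [if_neg hS, mul_zero]
      · intro h; exact absurd hS₀ h
    -- reduce to the base case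
    have hsub : indS n 1 N ⊆ indS n (r + 1 + 1) N := by
      intro S hS
      obtain ⟨h1, h2⟩ := (ind_mem_S n _ _ _).mp hS
      exact (ind_mem_S n _ _ _).mpr ⟨by omega, h2⟩
    have hz1 : ∑ S ∈ indS n 1 N, a S • indX x S ∈ Flt k F N := by
      rw [Finset.sum_subset hsub]
      · exact hz
      · intro S hS hS1
        have h2 : 2 ≤ S.card := by
          by_contra hcon
          apply hS1
          exact (ind_mem_S n _ _ _).mpr ⟨by omega, ((ind_mem_S n _ _ _).mp hS).2⟩
        rw [hbig S hS h2, zero_smul]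
    intro S hS
    by_cases h2 : 2 ≤ S.card
    · exact hbig S hS h2
    · exact ind_base k hx N a hz1 S
        ((ind_mem_S n _ _ _).mpr ⟨by omega, ((ind_mem_S n _ _ _).mp hS).2⟩)

/-- IND -/
theorem ind_pr {F : ℕ → Submodule k H} {m₀ : ℕ} {c : Fin m₀ → H} {w : Fin m₀ → ℕ}
    (hF : IsFilt k F c w) {m : ℕ} {x : Fin m → H} {n : Fin m → ℕ} (hx : IsIndep k F x n) :
    2 ^ m ≤ Module.finrank k ↥(F (∑ i, n i)) := by
  classical
  have hmem : ∀ S : Finset (Fin m), indX x S ∈ F (∑ i, n i) := by
    intro S
    refine hF.mono ?_ (indX_mem k hF.zero hF.mul (fun i => (hx.prim i).1) S)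
    exact Finset.sum_le_sum_of_subset (Finset.subset_univ S)
  have : FiniteDimensional k (F (∑ i, n i)) := Module.Finite.iff_fg.mpr (hF.fg _)
  have hli : LinearIndependent k (fun S : Finset (Fin m) => (⟨indX x S, hmem S⟩ : F (∑ i, n i))) := by
    rw [Fintype.linearIndependent_iff]
    intro g hg
    have hg' : ∑ S : Finset (Fin m), g S • indX x S = 0 := by
      have := congrArg (Submodule.subtype (F (∑ i, n i))) hg
      rw [map_sum, map_zero] at this
      simpa using this
    by_contra hcon
    push Not at hcon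
    obtain ⟨S₁, hS₁⟩ := hcon
    obtain ⟨S, hS, hmax⟩ := Finset.exists_max_image
      (Finset.univ.filter (fun S : Finset (Fin m) => g S ≠ 0)) (fun S => ∑ i ∈ S, n i)
      ⟨S₁, by simp [hS₁]⟩
    have hgS : g S ≠ 0 := (Finset.mem_filter.mp hS).2
    apply hgS
    refine ind_step k hF hx m (∑ i ∈ S, n i) g ?_ S ?_
    · have h1 : ∑ T ∈ indS n (m + 1) (∑ i ∈ S, n i), g T • indX x T =
          - ∑ T ∈ Finset.univ \ indS n (m + 1) (∑ i ∈ S, n i), g T • indX x T := by
        rw [eq_neg_iff_add_eq_zero, add_comm, Finset.sum_sdiff (Finset.subset_univ _)]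
        exact hg'
      rw [h1]
      refine neg_mem (sum_mem fun T hT => ?_)
      have hT' := (Finset.mem_sdiff.mp hT).2
      by_cases hgT : g T = 0
      · rw [hgT, zero_smul]; exact zero_mem _
      · have hle := hmax T (by simp [hgT])
        have hne : ∑ i ∈ T, n i ≠ ∑ i ∈ S, n i := by
          intro h
          apply hT'
          refine (ind_mem_S n _ _ _).mpr ⟨?_, h⟩
          have := T.card_le_univ
          rw [Fintype.card_fin] at this
          omega
        have hlt : ∑ i ∈ T, n i < ∑ i ∈ S, n i := lt_of_le_of_ne hle hne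
        exact Submodule.smul_mem _ _ (ttb_le_flt k F hF.mono hlt
          (indX_mem k hF.zero hF.mul (fun i => (hx.prim i).1) T))
    · refine (ind_mem_S n _ _ _).mpr ⟨?_, rfl⟩
      have := S.card_le_univ
      rw [Fintype.card_fin] at this
      omega
  have h := hli.fintype_card_le_finrank
  rwa [Fintype.card_finset, Fintype.card_fin] at h

end

end Pool.Agent.GK
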