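import Pool.Agent.Lib_helper82.GK.TTB

/-! Block LIE (helper82): the dichotomy. -/

set_option autoImplicit false

universe u v

namespace Pool.Agent.GK

open TensorProduct

section
variable (k : Type u) [Field k] {H : Type v} [Ring H] [Bialgebra k H]

/-- The submodule of elements of level `n` that are primitive modulo lower levels. -/
def lieAP (F : ℕ → Submodule k H) (n : ℕ) : Submodule k H where
  carrier := {x | ApproxPrim k F n x}
  zero_mem' := by
    refine ⟨zero_mem _, ?_⟩
    simp
  add_mem' := by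
    rintro x y ⟨hx, hx'⟩ ⟨hy, hy'⟩
    refine ⟨add_mem hx hy, ?_⟩
    have := add_mem hx' hy'
    convert this using 1
    rw [map_add, TensorProduct.add_tmul, TensorProduct.tmul_add]
    abel
  smul_mem' := by
    rintro r x ⟨hx, hx'⟩
    refine ⟨Submodule.smul_mem _ _ hx, ?_⟩
    have := Submodule.smul_mem _ r hx'
    convert this using 1
    rw [map_smul, smul_sub, smul_sub, TensorProduct.smul_tmul', TensorProduct.tmul_smul]

theorem lie_mem_AP (F : ℕ → Submodule k H) (n : ℕ) (x : H) :
    x ∈ lieAP k F n ↔ ApproxPrim k F n x := Iff.rfl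

theorem lie_flt_le_AP {F : ℕ → Submodule k H} (h0 : F 0 = Submodule.span k {1}) (hm : Monotone F)
    (hcomul : ∀ n : ℕ, ∀ x ∈ F n, Coalgebra.comul (R := k) x ∈ TT k F n) (n : ℕ) :
    Flt k F n ≤ lieAP k F n := by
  cases n with
  | zero => exact bot_le
  | succ n =>
    intro x hx
    have hx' : x ∈ F n := hx
    refine ⟨hm (Nat.le_succ n) hx', ?_⟩
    have h1 : (1 : H) ∈ F 0 := ttb_one k F h0
    refine sub_mem (sub_mem (hcomul n x hx') ?_) ?_
    · exact ttb_mem k F hx' h1 (by omega)
    · exact ttb_mem k F h1 hx' (by omega)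

theorem lie_comm_AP {F : ℕ → Submodule k H} (h0 : F 0 = Submodule.span k {1})
    (hmul : ∀ a b : ℕ, ∀ x ∈ F a, ∀ y ∈ F b, x * y ∈ F (a + b)) {a b : ℕ} {x y : H}
    (hx : ApproxPrim k F a x) (hy : ApproxPrim k F b y) :
    ApproxPrim k F (a + b) (x * y - y * x) := by
  obtain ⟨hx1, hx2⟩ := hx
  obtain ⟨hy1, hy2⟩ := hy
  have h1 : (1 : H) ∈ F 0 := ttb_one k F h0
  refine ⟨sub_mem (hmul _ _ _ hx1 _ hy1) (by rw [add_comm]; exact hmul _ _ _ hy1 _ hx1), ?_⟩
  set ε := Coalgebra.comul (R := k) x - x ⊗ₜ[k] (1 : H) - (1 : H) ⊗ₜ[k] x with hε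
  set η := Coalgebra.comul (R := k) y - y ⊗ₜ[k] (1 : H) - (1 : H) ⊗ₜ[k] y with hη
  have hdx : Coalgebra.comul (R := k) x = (x ⊗ₜ[k] (1 : H) + (1 : H) ⊗ₜ[k] x) + ε := by
    rw [hε]; abel
  have hdy : Coalgebra.comul (R := k) y = (y ⊗ₜ[k] (1 : H) + (1 : H) ⊗ₜ[k] y) + η := by
    rw [hη]; abel
  set p := (x ⊗ₜ[k] (1 : H) + (1 : H) ⊗ₜ[k] x) with hp
  set q := (y ⊗ₜ[k] (1 : H) + (1 : H) ⊗ₜ[k] y) with hq
  have hpT : p ∈ TT k F a := add_mem (ttb_mem k F hx1 h1 (by omega)) (ttb_mem k F h1 hx1 (by omega))
  have hqT : q ∈ TT k F b := add_mem (ttb_mem k F hy1 h1 (by omega)) (ttb_mem k F h1 hy1 (by omega))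
  have hpq : p * q - q * p = (x * y - y * x) ⊗ₜ[k] (1 : H) + (1 : H) ⊗ₜ[k] (x * y - y * x) := by
    rw [hp, hq, mul_add, add_mul, add_mul, mul_add, add_mul, add_mul]
    simp only [Algebra.TensorProduct.tmul_mul_tmul, mul_one, one_mul, TensorProduct.sub_tmul,
      TensorProduct.tmul_sub]
    abel
  have key : Coalgebra.comul (R := k) (x * y - y * x) - (x * y - y * x) ⊗ₜ[k] (1 : H)
      - (1 : H) ⊗ₜ[k] (x * y - y * x) = (p * η + ε * (q + η)) - (q * ε + η * (p + ε)) := by
    rw [map_sub, Bialgebra.comul_mul, Bialgebra.comul_mul, hdx, hdy]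
    have : (x * y - y * x) ⊗ₜ[k] (1 : H) = p * q - q * p - (1 : H) ⊗ₜ[k] (x * y - y * x) := by
      rw [hpq]; abel
    rw [this]
    noncomm_ring
  rw [key]
  have hεT : ε ∈ Tlt k F a := hx2
  have hηT : η ∈ Tlt k F b := hy2
  refine sub_mem (add_mem ?_ ?_) (add_mem ?_ ?_)
  · exact ttb_lt_mul k F hmul hpT hηT
  · exact ttb_mul_lt k F hmul hεT (add_mem hqT (ttb_tlt_le k F b hηT))
  · rw [add_comm]; exact ttb_lt_mul k F hmul hqT hεT
  · rw [add_comm]; exact ttb_mul_lt k F hmul hηT (add_mem hpT (ttb_tlt_le k F a hεT))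

/-- iterated commutators modulo lower levels -/
def lieL (F : ℕ → Submodule k H) {m : ℕ} (c : Fin m → H) (w : Fin m → ℕ) :
    ℕ → ℕ → Submodule k H
  | 0 => fun a => Flt k F a
  | n + 1 => fun a => lieL F c w n a ⊔
      (Submodule.span k {z | ∃ i, w i = a ∧ z = c i} ⊔
       Submodule.span k {z | ∃ i, w i ≤ a ∧ ∃ y ∈ lieL F c w n (a - w i), z = c i * y - y * c i})

theorem lieL_zero (F : ℕ → Submodule k H) {m : ℕ} (c : Fin m → H) (w : Fin m → ℕ) (a : ℕ) :
    lieL k F c w 0 a = Flt k F a := rfl

theorem lieL_succ (F : ℕ → Submodule k H) {m : ℕ} (c : Fin m → H) (w : Fin m → ℕ) (n a : ℕ) :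
    lieL k F c w (n + 1) a = lieL k F c w n a ⊔
      (Submodule.span k {z | ∃ i, w i = a ∧ z = c i} ⊔
       Submodule.span k {z | ∃ i, w i ≤ a ∧ ∃ y ∈ lieL k F c w n (a - w i),
        z = c i * y - y * c i}) := rfl

theorem lieL_mono (F : ℕ → Submodule k H) {m : ℕ} (c : Fin m → H) (w : Fin m → ℕ) (a : ℕ)
    {p q : ℕ} (h : p ≤ q) : lieL k F c w p a ≤ lieL k F c w q a := by
  induction h with
  | refl => exact le_rfl
  | step _ ih => exact ih.trans le_sup_left

theorem lieL_flt (F : ℕ → Submodule k H) {m : ℕ} (c : Fin m → H) (w : Fin m → ℕ) (n a : ℕ) :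
    Flt k F a ≤ lieL k F c w n a := by
  have := lieL_mono k F c w a (Nat.zero_le n)
  exact this

theorem lieL_AP {F : ℕ → Submodule k H} {m : ℕ} {c : Fin m → H} {w : Fin m → ℕ}
    (hF : IsFilt k F c w) (n : ℕ) : ∀ a, lieL k F c w n a ≤ lieAP k F a := by
  induction n with
  | zero => intro a; exact lie_flt_le_AP k hF.zero hF.mono hF.comul a
  | succ n ih =>
    intro a
    rw [lieL_succ]
    refine sup_le (ih a) (sup_le ?_ ?_)
    · rw [Submodule.span_le]
      rintro _ ⟨i, hi, rfl⟩
      subst hi
      exact hF.prim i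
    · rw [Submodule.span_le]
      rintro _ ⟨i, hi, y, hy, rfl⟩
      have h1 := lie_comm_AP k hF.zero hF.mul (hF.prim i) (ih _ hy)
      rw [Nat.add_sub_cancel' hi] at h1
      exact h1

theorem lieL_weight_zero {F : ℕ → Submodule k H} {m : ℕ} {c : Fin m → H} {w : Fin m → ℕ}
    (hF : IsFilt k F c w) (n : ℕ) : lieL k F c w n 0 = ⊥ := by
  induction n with
  | zero => rfl
  | succ n ih =>
    rw [lieL_succ, ih, bot_sup_eq, eq_bot_iff]
    refine sup_le ?_ ?_
    · rw [Submodule.span_le]
      rintro _ ⟨i, hi, rfl⟩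
      have := hF.wpos i
      omega
    · rw [Submodule.span_le]
      rintro _ ⟨i, hi, _⟩
      have := hF.wpos i
      omega

theorem lie_flt_mul {F : ℕ → Submodule k H} (hmul : ∀ a b : ℕ, ∀ x ∈ F a, ∀ y ∈ F b, x * y ∈ F (a + b))
    (hm : Monotone F) {a b : ℕ} {x y : H} (hx : x ∈ F a) (hy : y ∈ Flt k F b) :
    x * y ∈ Flt k F (a + b) := by
  cases b with
  | zero =>
    have : y = 0 := by simpa [Flt] using hy
    rw [this, mul_zero]; exact zero_mem _
  | succ b => exact ttb_le_flt k F hm (by omega) (hmul _ _ _ hx _ hy)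

theorem lie_mul_flt {F : ℕ → Submodule k H} (hmul : ∀ a b : ℕ, ∀ x ∈ F a, ∀ y ∈ F b, x * y ∈ F (a + b))
    (hm : Monotone F) {a b : ℕ} {x y : H} (hx : x ∈ Flt k F a) (hy : y ∈ F b) :
    x * y ∈ Flt k F (a + b) := by
  cases a with
  | zero =>
    have : x = 0 := by simpa [Flt] using hx
    rw [this, zero_mul]; exact zero_mem _
  | succ a => exact ttb_le_flt k F hm (by omega) (hmul _ _ _ hx _ hy)

theorem lieL_high {F : ℕ → Submodule k H} {m : ℕ} {c : Fin m → H} {w : Fin m → ℕ}
    (hF : IsFilt k F c w) (W : ℕ) (hW : ∀ i, w i ≤ W) (n : ℕ) :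
    ∀ a, W * n < a → lieL k F c w n a = Flt k F a := by
  induction n with
  | zero => intro a _; rfl
  | succ n ih =>
    intro a ha
    have ha' : W * n + W < a := by rw [Nat.mul_succ] at ha; exact ha
    refine le_antisymm ?_ (lieL_flt k F c w (n + 1) a)
    rw [lieL_succ, ih a (by omega)]
    refine sup_le le_rfl (sup_le ?_ ?_)
    · rw [Submodule.span_le]
      rintro _ ⟨i, hi, rfl⟩
      have := hW i
      omega
    · rw [Submodule.span_le]
      rintro _ ⟨i, hi, y, hy, rfl⟩
      have hwi := hW i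
      rw [ih (a - w i) (by omega)] at hy
      have hci : c i ∈ F (w i) := (hF.prim i).1
      have h1 := lie_flt_mul k hF.mul hF.mono hci hy
      have h2 := lie_mul_flt k hF.mul hF.mono hy hci
      rw [Nat.add_sub_cancel' hi] at h1
      rw [Nat.sub_add_cancel hi] at h2
      exact sub_mem h1 h2

theorem lieL_gen_mem (F : ℕ → Submodule k H) {m : ℕ} (c : Fin m → H) (w : Fin m → ℕ) (n : ℕ)
    (i : Fin m) : c i ∈ lieL k F c w (n + 1) (w i) := by
  rw [lieL_succ]
  exact Submodule.mem_sup_right (Submodule.mem_sup_left (Submodule.subset_span ⟨i, rfl, rfl⟩))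

theorem lieL_comm {F : ℕ → Submodule k H} {m : ℕ} {c : Fin m → H} {w : Fin m → ℕ}
    (hF : IsFilt k F c w) (n : ℕ) : ∀ (p a b : ℕ), ∀ x ∈ lieL k F c w n a,
      ∀ y ∈ lieL k F c w p b, x * y - y * x ∈ lieL k F c w (n + p) (a + b) := by
  induction n with
  | zero =>
    intro p a b x hx y hy
    have hyF : y ∈ F b := (lieL_AP k hF p b hy).1
    have h1 := lie_mul_flt k hF.mul hF.mono hx hyF
    have h2 := lie_flt_mul k hF.mul hF.mono hyF hx
    rw [add_comm b a] at h2
    exact lieL_flt k F c w _ _ (sub_mem h1 h2)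
  | succ n ih =>
    intro p a b x hx y hy
    let Φ : H →ₗ[k] H := LinearMap.mulRight k y - LinearMap.mulLeft k y
    have hΦ : ∀ z, Φ z = z * y - y * z := fun z => by
      simp [Φ, LinearMap.mulRight_apply, LinearMap.mulLeft_apply]
    have : lieL k F c w (n + 1) a ≤ (lieL k F c w (n + 1 + p) (a + b)).comap Φ := by
      rw [lieL_succ]
      refine sup_le ?_ (sup_le ?_ ?_)
      · intro z hz
        rw [Submodule.mem_comap, hΦ]
        exact lieL_mono k F c w _ (by omega) (ih p a b z hz y hy)
      · rw [Submodule.span_le]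
        rintro _ ⟨i, hi, rfl⟩
        rw [SetLike.mem_coe, Submodule.mem_comap, hΦ]
        have h1 : c i * y - y * c i ∈ lieL k F c w (p + 1) (a + b) := by
          rw [lieL_succ]
          refine Submodule.mem_sup_right (Submodule.mem_sup_right (Submodule.subset_span
            ⟨i, by omega, y, ?_, rfl⟩))
          have : a + b - w i = b := by omega
          rw [this]; exact hy
        exact lieL_mono k F c w _ (by omega) h1
      · rw [Submodule.span_le]
        rintro _ ⟨i, hi, y', hy', rfl⟩
        rw [SetLike.mem_coe, Submodule.mem_comap, hΦ]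
        have h1 : y' * y - y * y' ∈ lieL k F c w (n + p) (a - w i + b) := ih p _ b y' hy' y hy
        have h2 : c i * (y' * y - y * y') - (y' * y - y * y') * c i ∈
            lieL k F c w (n + p + 1) (a + b) := by
          rw [lieL_succ]
          refine Submodule.mem_sup_right (Submodule.mem_sup_right (Submodule.subset_span
            ⟨i, by omega, _, ?_, rfl⟩))
          have : a + b - w i = a - w i + b := by omega
          rw [this]; exact h1
        have h3 : c i * y - y * c i ∈ lieL k F c w (p + 1) (w i + b) := by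
          rw [lieL_succ]
          refine Submodule.mem_sup_right (Submodule.mem_sup_right (Submodule.subset_span
            ⟨i, by omega, y, ?_, rfl⟩))
          have : w i + b - w i = b := by omega
          rw [this]; exact hy
        have h4 := ih (p + 1) _ _ y' hy' _ h3
        have e1 : a - w i + (w i + b) = a + b := by omega
        have e2 : n + (p + 1) = n + p + 1 := by omega
        rw [e1, e2] at h4
        have h5 := sub_mem h2 h4
        have e3 : n + 1 + p = n + p + 1 := by omega
        rw [e3]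
        have e4 : (c i * y' - y' * c i) * y - y * (c i * y' - y' * c i) =
            c i * (y' * y - y * y') - (y' * y - y * y') * c i -
              (y' * (c i * y - y * c i) - (c i * y - y * c i) * y') := by
          noncomm_ring
        rw [e4]; exact h5
    have h := this hx
    rw [Submodule.mem_comap, hΦ] at h
    exact h

/-- LIE -/
theorem dich_pr {F : ℕ → Submodule k H} {m₀ : ℕ} {c : Fin m₀ → H} {w : Fin m₀ → ℕ}
    (hF : IsFilt k F c w) :
    (∃ W : ℕ, ∀ m : ℕ, ∃ (x : Fin m → H) (n : Fin m → ℕ), IsIndep k F x n ∧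
      ∀ i, n i ≤ W * (i.val + 1)) ∨
    (∃ (d : ℕ) (x : Fin d → H) (w' : Fin d → ℕ), IsLieGen k F x w') := by
  classical
  let W : ℕ := ∑ i, w i
  have hW : ∀ i, w i ≤ W := fun i =>
    Finset.single_le_sum (f := w) (fun j _ => Nat.zero_le _) (Finset.mem_univ i)
  by_cases hst : ∃ n, ∀ a, lieL k F c w (n + 1) a ≤ lieL k F c w n a
  · right
    obtain ⟨n, hn⟩ := hst
    -- stability for all higher levels
    have hstab : ∀ q, ∀ a, lieL k F c w (n + q) a = lieL k F c w n a := by
      intro q
      induction q with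
      | zero => intro a; rfl
      | succ q ih =>
        intro a
        refine le_antisymm ?_ (lieL_mono k F c w a (by omega))
        have e : n + (q + 1) = (n + q) + 1 := by omega
        rw [e, lieL_succ]
        refine le_trans ?_ (hn a)
        rw [lieL_succ]
        refine sup_le_sup (ih a).le (sup_le_sup le_rfl ?_)
        refine Submodule.span_mono ?_
        rintro z ⟨i, hi, y, hy, rfl⟩
        exact ⟨i, hi, y, (ih _) ▸ hy, rfl⟩
    have hfg : ∀ a, (lieL k F c w n a).FG := by
      intro a
      have hle : lieL k F c w n a ≤ F a := fun x hx => (lieL_AP k hF n a hx).1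
      have : FiniteDimensional k (F a) := Module.Finite.iff_fg.mpr (hF.fg a)
      have := Submodule.finiteDimensional_of_le hle
      exact Module.Finite.iff_fg.mp inferInstance
    choose G hG using hfg
    -- index type
    let ι := Σ a : Fin (W * n + 1), {x : H // x ∈ G a.val ∧ 1 ≤ a.val}
    have : ∀ a : Fin (W * n + 1), Fintype {x : H // x ∈ G a.val ∧ 1 ≤ a.val} := by
      intro a
      have hf : ({x : H | x ∈ G a.val ∧ 1 ≤ a.val} : Set H).Finite :=
        (G a.val).finite_toSet.subset (fun x hx => hx.1)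
      exact hf.fintype
    let e := Fintype.equivFin ι
    let X : ι → H := fun j => j.2.1
    let wt : ι → ℕ := fun j => j.1.val
    refine ⟨Fintype.card ι, fun j => X (e.symm j), fun j => wt (e.symm j), ?_⟩
    have hX : ∀ j : ι, X j ∈ lieL k F c w n (wt j) := by
      intro j
      rw [← hG (wt j)]
      exact Submodule.subset_span j.2.2.1
    have hspan : ∀ a, lieL k F c w n a ≤ Flt k F a ⊔
        Submodule.span k ((fun j => X (e.symm j)) '' {l | wt (e.symm l) = a}) := by
      intro a
      by_cases ha : W * n < a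
      · rw [lieL_high k hF W hW n a ha]; exact le_sup_left
      · by_cases ha0 : a = 0
        · subst ha0; rw [lieL_weight_zero k hF n]; exact bot_le
        · refine le_trans ?_ le_sup_right
          rw [← hG a]
          refine Submodule.span_mono ?_
          intro x hx
          refine ⟨e ⟨⟨a, by omega⟩, ⟨x, hx, by change 1 ≤ a; omega⟩⟩, ?_, ?_⟩
          · simp [wt]
          · simp [X]
    have hcmem : ∀ i, c i ∈ lieL k F c w n (w i) := by
      intro i
      have := lieL_gen_mem k F c w n i
      rwa [hstab 1] at this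
    refine ⟨?_, ?_, ?_, ?_⟩
    · intro j
      exact (e.symm j).2.2.2
    · intro j
      exact (lieL_AP k hF n _ (hX _)).1
    · intro i j
      have h := lieL_comm k hF n n _ _ _ (hX (e.symm i)) _ (hX (e.symm j))
      rw [hstab n] at h
      exact hspan _ h
    · intro N hN
      refine (hF.gen N hN).trans (sup_le le_sup_left ?_)
      rw [Submodule.span_le]
      rintro _ ⟨i, hi, y, hy, rfl⟩
      -- c i in Flt ⊔ span
      have h1 := hspan (w i) (hcmem i)
      have hmap : Flt k F (w i) ⊔
          Submodule.span k ((fun j => X (e.symm j)) '' {l | wt (e.symm l) = w i}) ≤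
          (Flt k F N ⊔ Submodule.span k {z | ∃ i, wt (e.symm i) ≤ N ∧
            ∃ y ∈ F (N - wt (e.symm i)), z = X (e.symm i) * y}).comap
            (LinearMap.mulRight k y) := by
        refine sup_le ?_ ?_
        · intro z hz
          rw [Submodule.mem_comap, LinearMap.mulRight_apply]
          have := lie_mul_flt k hF.mul hF.mono hz hy
          rw [Nat.add_sub_cancel' hi] at this
          exact Submodule.mem_sup_left this
        · rw [Submodule.span_le]
          rintro _ ⟨l, hl, rfl⟩
          rw [SetLike.mem_coe, Submodule.mem_comap, LinearMap.mulRight_apply]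
          have hl' : wt (e.symm l) = w i := hl
          refine Submodule.mem_sup_right (Submodule.subset_span ⟨l, by omega, y, ?_, rfl⟩)
          rw [hl']; exact hy
      have h2 := hmap h1
      rw [Submodule.mem_comap, LinearMap.mulRight_apply] at h2
      exact h2
  · left
    push Not at hst
    have hch : ∀ n, ∃ a, ∃ x, x ∈ lieL k F c w (n + 1) a ∧ x ∉ lieL k F c w n a := by
      intro n
      obtain ⟨a, ha⟩ := hst n
      obtain ⟨x, hx, hx'⟩ := SetLike.not_le_iff_exists.mp ha
      exact ⟨a, x, hx, hx'⟩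
    choose a x hx hx' using hch
    refine ⟨W, fun m => ⟨fun i => x i.val, fun i => a i.val, ⟨?_, ?_, ?_⟩, ?_⟩⟩
    · intro i
      by_contra hcon
      have h0 : a i.val = 0 := by omega
      apply hx' i.val
      have h := hx i.val
      rw [h0, lieL_weight_zero k hF] at h
      rw [h0, lieL_weight_zero k hF]
      exact h
    · intro i
      exact lieL_AP k hF _ _ (hx i.val)
    · intro i hcon
      apply hx' i.val
      have hle : Flt k F (a i.val) ⊔
          Submodule.span k ((fun j : Fin m => x j.val) '' {j | j < i ∧ a j.val = a i.val}) ≤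
          lieL k F c w i.val (a i.val) := by
        refine sup_le (lieL_flt k F c w _ _) ?_
        rw [Submodule.span_le]
        rintro _ ⟨j, ⟨hj, hja⟩, rfl⟩
        have h1 := hx j.val
        rw [hja] at h1
        exact lieL_mono k F c w _ (Nat.succ_le_of_lt hj) h1
      exact hle hcon
    · intro i
      by_contra hcon
      push Not at hcon
      have hlt : W * (i.val + 1) < a i.val := hcon
      have h1 := hx i.val
      rw [lieL_high k hF W hW _ _ hlt] at h1
      exact hx' i.val (lieL_flt k F c w _ _ h1)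

end

end Pool.Agent.GK
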