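import Pool.Agent.Lib_helper11.GK.Defs

/-! Common lemmas on the total filtration `TT` (helper82, blocks IND and LIE). -/

set_option autoImplicit false

universe u v

namespace Pool.Agent.GK

open TensorProduct

section
variable (k : Type u) [Field k] {H : Type v} [Ring H] [Bialgebra k H]

theorem ttb_mono (F : ℕ → Submodule k H) {a b : ℕ} (h : a ≤ b) : TT k F a ≤ TT k F b := by
  refine Submodule.span_mono ?_
  rintro t ⟨p, q, u, hu, v, hv, hpq, rfl⟩
  exact ⟨p, q, u, hu, v, hv, hpq.trans h, rfl⟩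

theorem ttb_tlt_le (F : ℕ → Submodule k H) (a : ℕ) : Tlt k F a ≤ TT k F a := by
  cases a with
  | zero => exact bot_le
  | succ a => exact ttb_mono k F (Nat.le_succ a)

theorem ttb_le_tlt (F : ℕ → Submodule k H) {a b : ℕ} (h : a < b) : TT k F a ≤ Tlt k F b := by
  cases b with
  | zero => omega
  | succ b => exact ttb_mono k F (Nat.lt_succ_iff.mp h)

theorem ttb_flt_le (F : ℕ → Submodule k H) (hm : Monotone F) (a : ℕ) : Flt k F a ≤ F a := by
  cases a with
  | zero => exact bot_le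
  | succ a => exact hm (Nat.le_succ a)

theorem ttb_le_flt (F : ℕ → Submodule k H) (hm : Monotone F) {a b : ℕ} (h : a < b) :
    F a ≤ Flt k F b := by
  cases b with
  | zero => omega
  | succ b => exact hm (Nat.lt_succ_iff.mp h)

theorem ttb_mem (F : ℕ → Submodule k H) {a b n : ℕ} {u v : H} (hu : u ∈ F a) (hv : v ∈ F b)
    (h : a + b ≤ n) : u ⊗ₜ[k] v ∈ TT k F n :=
  Submodule.subset_span ⟨a, b, u, hu, v, hv, h, rfl⟩

theorem ttb_mul (F : ℕ → Submodule k H)
    (hmul : ∀ a b : ℕ, ∀ x ∈ F a, ∀ y ∈ F b, x * y ∈ F (a + b)) {a b : ℕ}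
    {s t : H ⊗[k] H} (hs : s ∈ TT k F a) (ht : t ∈ TT k F b) : s * t ∈ TT k F (a + b) := by
  refine Submodule.span_induction (p := fun s _ => s * t ∈ TT k F (a + b)) ?_ ?_ ?_ ?_ hs
  · rintro _ ⟨p, q, u, hu, v, hv, hpq, rfl⟩
    refine Submodule.span_induction (p := fun t _ => u ⊗ₜ[k] v * t ∈ TT k F (a + b)) ?_ ?_ ?_ ?_ ht
    · rintro _ ⟨p', q', u', hu', v', hv', hpq', rfl⟩
      rw [Algebra.TensorProduct.tmul_mul_tmul]
      exact ttb_mem k F (hmul _ _ _ hu _ hu') (hmul _ _ _ hv _ hv') (by omega)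
    · rw [mul_zero]; exact zero_mem _
    · intro x y _ _ hx hy; rw [mul_add]; exact add_mem hx hy
    · intro r x _ hx; rw [mul_smul_comm]; exact Submodule.smul_mem _ _ hx
  · rw [zero_mul]; exact zero_mem _
  · intro x y _ _ hx hy; rw [add_mul]; exact add_mem hx hy
  · intro r x _ hx; rw [smul_mul_assoc]; exact Submodule.smul_mem _ _ hx

theorem ttb_mul_lt (F : ℕ → Submodule k H)
    (hmul : ∀ a b : ℕ, ∀ x ∈ F a, ∀ y ∈ F b, x * y ∈ F (a + b)) {a b : ℕ}
    {s t : H ⊗[k] H} (hs : s ∈ Tlt k F a) (ht : t ∈ TT k F b) : s * t ∈ Tlt k F (a + b) := by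
  cases a with
  | zero =>
    have : s = 0 := by simpa [Tlt] using hs
    rw [this, zero_mul]; exact zero_mem _
  | succ a =>
    have := ttb_mul k F hmul (a := a) (b := b) hs ht
    exact ttb_le_tlt k F (by omega) this

theorem ttb_lt_mul (F : ℕ → Submodule k H)
    (hmul : ∀ a b : ℕ, ∀ x ∈ F a, ∀ y ∈ F b, x * y ∈ F (a + b)) {a b : ℕ}
    {s t : H ⊗[k] H} (hs : s ∈ TT k F a) (ht : t ∈ Tlt k F b) : s * t ∈ Tlt k F (a + b) := by
  cases b with
  | zero =>
    have : t = 0 := by simpa [Tlt] using ht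
    rw [this, mul_zero]; exact zero_mem _
  | succ b =>
    have := ttb_mul k F hmul (a := a) (b := b) hs ht
    exact ttb_le_tlt k F (by omega) this

theorem ttb_one (F : ℕ → Submodule k H) (h0 : F 0 = Submodule.span k {1}) : (1 : H) ∈ F 0 := by
  rw [h0]; exact Submodule.mem_span_singleton_self 1

end

end Pool.Agent.GK
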